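import Pool.Agent.Run7.h342.MD.Stm

/-!
Piece ORB of the project MD of helper342: restriction of regular functions to orbits.
-/

namespace Run7.h675.MD

open MvPolynomial Run7.h342.MD

noncomputable section

variable {n d : ℕ} {k : Type} [Field k]

theorem pol_map {R S : Type} [CommRing R] [CommRing S] (f : R →+* S) (c : Ix n d → R)
    (j : Fin n) : pol (fun q => f (c q)) j = map f (pol c j) := by
  unfold pol
  rw [map_sum]
  refine Finset.sum_congr rfl fun s _ => ?_
  rw [map_mul, map_C, map_multiset_prod, Multiset.map_map]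
  simp

theorem tw_map {R S : Type} [CommRing R] [CommRing S] (f : R →+* S)
    (A B : Matrix (Fin n) (Fin n) R) (c : Ix n d → R) (q : Ix n d) :
    f (tw A B c q) = tw (A.map f) (B.map f) (fun q => f (c q)) q := by
  unfold tw
  rw [← coeff_map, map_sum]
  congr 1
  refine Finset.sum_congr rfl fun j _ => ?_
  rw [map_mul, map_C, Matrix.map_apply]
  congr 1
  rw [pol_map, map_aeval, aeval_def, eval₂_map, coe_eval₂Hom]
  congr 1
  · ext r
    simp
  · funext l
    rw [map_sum]
    refine Finset.sum_congr rfl fun m _ => ?_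
    rw [map_mul, map_C, map_X, Matrix.map_apply]

/-! ## the generic matrix -/

/-- coordinate function -/
def Gm (n : ℕ) (k : Type) [Field k] : Matrix (Fin n) (Fin n) (OG n k) := fun i j =>
  ⟨fun g => g.1 i j, X (i, j), 0, fun g => by rw [pow_zero, mul_one, eval_X]; rfl⟩

theorem adj_eq (g : GL (Fin n) k) :
    (g : Matrix (Fin n) (Fin n) k).adjugate = (g : Matrix (Fin n) (Fin n) k).det •
      ((g⁻¹ : GL (Fin n) k) : Matrix (Fin n) (Fin n) k) := by
  have h1 : (g : Matrix (Fin n) (Fin n) k) * (g : Matrix (Fin n) (Fin n) k).adjugate =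
    (g : Matrix (Fin n) (Fin n) k).det • (1 : Matrix (Fin n) (Fin n) k) := Matrix.mul_adjugate _
  have h2 : ((g⁻¹ : GL (Fin n) k) : Matrix (Fin n) (Fin n) k) *
      (g : Matrix (Fin n) (Fin n) k) = 1 := g.inv_mul
  calc (g : Matrix (Fin n) (Fin n) k).adjugate
      = (((g⁻¹ : GL (Fin n) k) : Matrix (Fin n) (Fin n) k) *
          (g : Matrix (Fin n) (Fin n) k)) * (g : Matrix (Fin n) (Fin n) k).adjugate := by
        rw [h2, one_mul]
    _ = _ := by rw [mul_assoc, h1, mul_smul_comm, mul_one]

theorem eval_adj (g : GL (Fin n) k) (i j : Fin n) :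
    eval (ent (g : Matrix (Fin n) (Fin n) k))
      ((Matrix.mvPolynomialX (Fin n) (Fin n) k).adjugate i j) =
    (g : Matrix (Fin n) (Fin n) k).adjugate i j := by
  have h1 := RingHom.map_adjugate (eval (ent (g : Matrix (Fin n) (Fin n) k)))
    (Matrix.mvPolynomialX (Fin n) (Fin n) k)
  have h2 : (eval (ent (g : Matrix (Fin n) (Fin n) k))).mapMatrix
      (Matrix.mvPolynomialX (Fin n) (Fin n) k) = (g : Matrix (Fin n) (Fin n) k) :=
    Matrix.mvPolynomialX_mapMatrix_eval _
  rw [h2] at h1
  rw [← h1]
  rfl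

/-- the coordinates of the inverse -/
def Gi (n : ℕ) (k : Type) [Field k] : Matrix (Fin n) (Fin n) (OG n k) := fun i j =>
  ⟨fun g => (g⁻¹ : GL (Fin n) k).1 i j, (Matrix.mvPolynomialX (Fin n) (Fin n) k).adjugate i j, 1,
    fun g => by
      rw [pow_one, eval_adj, adj_eq, Matrix.smul_apply, smul_eq_mul, mul_comm]⟩

/-- evaluation at a point of `GL_n` -/
def evg (g : GL (Fin n) k) : OG n k →+* k :=
  (Pi.evalRingHom (fun _ : GL (Fin n) k => k) g).comp (OG n k).toSubring.subtype

theorem evg_apply (g : GL (Fin n) k) (f : OG n k) : evg g f = f.1 g := rfl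

/-- the coordinates of `act g v` as functions of `g` -/
def aG (v : Ix n d → k) (q : Ix n d) : OG n k :=
  tw (Gm n k) (Gi n k) (fun q => algebraMap k (OG n k) (v q)) q

theorem aG_apply (v : Ix n d → k) (q : Ix n d) (g : GL (Fin n) k) :
    (aG v q).1 g = act g v q := by
  rw [← evg_apply]
  exact tw_map (evg g) (Gm n k) (Gi n k) _ q

theorem Gm_mul_Gi : Gm n k * Gi n k = 1 := by
  ext i j g
  rw [← evg_apply, ← evg_apply, Matrix.mul_apply, map_sum]
  have h1 : (g : Matrix (Fin n) (Fin n) k) *
      ((g⁻¹ : GL (Fin n) k) : Matrix (Fin n) (Fin n) k) = 1 := g.mul_inv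
  have h2 := congrFun (congrFun h1 i) j
  rw [Matrix.mul_apply] at h2
  simp only [map_mul]
  refine h2.trans ?_
  by_cases hij : i = j
  · subst hij
    rw [Matrix.one_apply_eq, Matrix.one_apply_eq, map_one]
  · rw [Matrix.one_apply_ne hij, Matrix.one_apply_ne hij, map_zero]

/-- composition of a polynomial with `g ↦ act g v` -/
def pG (v : Ix n d → k) (P : MvPolynomial (Ix n d) k) : OG n k := aeval (aG v) P

theorem pG_apply (v : Ix n d → k) (P : MvPolynomial (Ix n d) k) (g : GL (Fin n) k) :
    (pG v P).1 g = eval (act g v) P := by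
  unfold pG
  rw [← evg_apply, map_aeval, coe_eval₂Hom]
  have h1 : (evg g).comp (algebraMap k (OG n k)) = RingHom.id k := by
    ext r
    rfl
  have h2 : (fun i => evg g (aG v i)) = act g v := by
    funext q
    rw [evg_apply, aG_apply]
  rw [h1, h2]
  rfl

/-! ## inverses of regular functions without zeros -/

theorem reg_inv [IsAlgClosed k] (f : GL (Fin n) k → k) (hf : RegG f) (h0 : ∀ g, f g ≠ 0) :
    RegG (fun g => (f g)⁻¹) := by
  obtain ⟨p, m, hp⟩ := hf
  have hdet : ∀ A : Matrix (Fin n) (Fin n) k, eval (ent A)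
      (Matrix.mvPolynomialX (Fin n) (Fin n) k).det = A.det := by
    intro A
    exact Matrix.eval_det_mvPolynomialX (Fin n) k (ent A)
  have h1 : (Matrix.mvPolynomialX (Fin n) (Fin n) k).det ∈
      vanishingIdeal k (zeroLocus k (Ideal.span {p})) := by
    rw [mem_vanishingIdeal_iff]
    intro x hx
    rw [mem_zeroLocus_iff] at hx
    have hx1 := hx p (Ideal.subset_span rfl)
    by_contra hne
    set A : Matrix (Fin n) (Fin n) k := fun i j => x (i, j) with hA
    have hxA : x = ent A := by
      funext q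
      rfl
    rw [aeval_eq_eval, hxA] at hne hx1
    have hd : A.det ≠ 0 := by
      intro h
      apply hne
      rw [← h]
      exact hdet A
    have h3 := hp (Matrix.GeneralLinearGroup.mkOfDetNeZero A hd)
    have h4 : ((Matrix.GeneralLinearGroup.mkOfDetNeZero A hd : GL (Fin n) k) :
      Matrix (Fin n) (Fin n) k) = A := rfl
    rw [h4] at h3
    have h5 : eval (ent A) p = 0 := hx1
    rw [h5] at h3
    exact mul_ne_zero (h0 _) (pow_ne_zero m hd) h3
  rw [vanishingIdeal_zeroLocus_eq_radical] at h1
  obtain ⟨N, hN⟩ := h1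
  rw [Ideal.mem_span_singleton] at hN
  obtain ⟨s, hs⟩ := hN
  refine ⟨(Matrix.mvPolynomialX (Fin n) (Fin n) k).det ^ m * s, N, fun g => ?_⟩
  have h6 := congrArg (eval (ent (g : Matrix (Fin n) (Fin n) k))) hs
  rw [map_pow, map_mul, hdet, ← hp g] at h6
  rw [h6, map_mul, map_pow, hdet]
  have h7 := h0 g
  field_simp

/-! ## dual numbers -/

section dual

open TrivSqZeroExt

/-- the ring homomorphism to the dual numbers given by a tangent vector -/
def dualHom (h4 : S_DG n k) (Y : Matrix (Fin n) (Fin n) k) : OG n k →+* DualNumber k where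
  toFun f := inl (f.1 1) + inr (dG f.1 Y)
  map_one' := by
    have h1 := h4.const 1 Y
    ext
    · simp
    · simp only [snd_add, snd_inl, snd_inr, zero_add, snd_one]
      exact h1
  map_mul' := by
    intro f f'
    have h1 := h4.mul f.1 f'.1 f.2 f'.2 Y
    ext
    · simp
    · simp only [snd_add, snd_inl, snd_inr, zero_add, snd_mul, fst_add, fst_inl, fst_inr, add_zero,
        smul_eq_mul, op_smul_eq_mul]
      rw [show (f * f').1 = f.1 * f'.1 from rfl, h1]
      ring
  map_zero' := by
    have h1 := h4.const 0 Y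
    ext
    · simp
    · simp only [snd_add, snd_inl, snd_inr, zero_add, snd_zero]
      exact h1
  map_add' := by
    intro f f'
    have h1 := h4.add f.1 f'.1 f.2 f'.2 Y
    ext
    · simp
    · simp only [snd_add, snd_inl, snd_inr, zero_add]
      exact h1

theorem dualHom_apply (h4 : S_DG n k) (Y : Matrix (Fin n) (Fin n) k) (f : OG n k) :
    dualHom h4 Y f = inl (f.1 1) + inr (dG f.1 Y) := rfl

/-- Taylor expansion over the dual numbers -/
theorem taylor (P : MvPolynomial (Fin n) k) (x z : Fin n → k) :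
    eval₂ (inlHom k k) (fun l => (inl (x l) + inr (z l) : DualNumber k)) P =
      inl (eval x P) + inr (∑ l, z l * eval x (pderiv l P)) := by
  induction P using MvPolynomial.induction_on with
  | C a =>
    rw [eval₂_C]
    ext
    · simp
    · simp
  | add p q hp hq =>
    rw [eval₂_add, hp, hq]
    ext
    · simp
    · simp only [snd_add, snd_inl, snd_inr, zero_add, map_add, mul_add, Finset.sum_add_distrib]
  | mul_X p i hp =>
    have h1 : ∀ l, z l * eval x (pderiv l (p * X i)) =
        (z l * eval x (pderiv l p)) * x i + (if l = i then eval x p * z i else 0) := by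
      intro l
      rw [Derivation.leibniz, map_add, smul_eq_mul, smul_eq_mul, map_mul, map_mul, eval_X]
      by_cases hl : l = i
      · subst hl
        rw [pderiv_X_self, map_one, if_pos rfl]
        ring
      · rw [pderiv_X_of_ne (Ne.symm hl), map_zero, if_neg hl]
        ring
    have key : ∑ l, z l * eval x (pderiv l (p * X i)) =
        (∑ l, z l * eval x (pderiv l p)) * x i + eval x p * z i := by
      rw [Finset.sum_congr rfl fun l _ => h1 l, Finset.sum_add_distrib, Finset.sum_ite_eq',
        if_pos (Finset.mem_univ i), Finset.sum_mul]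
    rw [eval₂_mul, hp, eval₂_X, key, map_mul, eval_X]
    ext
    · simp
    · simp only [snd_add, snd_inl, snd_inr, zero_add, snd_mul, fst_add, fst_inl, fst_inr, add_zero,
        smul_eq_mul, op_smul_eq_mul]
      ring

/-- values of forms over the dual numbers at a point of the base field -/
theorem ev_dual (c : Ix n d → DualNumber k) (x : Fin n → k) (i : Fin n) :
    ev c (fun l => inl (x l)) i =
      inl (ev (fun q => (c q).fst) x i) + inr (ev (fun q => (c q).snd) x i) := by
  have h1 : ∀ s : Multiset (Fin n), (s.map (fun l => (inl (x l) : DualNumber k))).prod =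
      inl ((s.map x).prod) := by
    intro s
    have := (map_multiset_prod (inlHom k k) (s.map x))
    rw [Multiset.map_map] at this
    exact this.symm
  unfold ev
  ext
  · simp only [h1, fst_add, fst_inl, fst_inr, add_zero, fst_sum, fst_mul]
  · simp only [h1, snd_add, snd_inl, snd_inr, zero_add, snd_sum, snd_mul, fst_inl, smul_zero,
      op_smul_eq_mul]

/-- the forms at a point with dual coordinates -/
theorem ev_inl (c : Ix n d → k) (x z : Fin n → k) (i : Fin n) :
    ev (fun q => (inl (c q) : DualNumber k)) (fun l => inl (x l) + inr (z l)) i =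
      inl (ev c x i) + inr (∑ l, z l * eval x (pderiv l (pol c i))) := by
  have h1 := taylor (pol c i) x z
  rw [eval_pol] at h1
  rw [← h1, ← eval_pol]
  have h2 := pol_map (inlHom k k) c i
  have h3 : (fun q => (inlHom k k) (c q)) = fun q => (inl (c q) : DualNumber k) := rfl
  rw [h3] at h2
  rw [h2, eval_map]

theorem mulVec_dual (Y : Matrix (Fin n) (Fin n) k) (A : Matrix (Fin n) (Fin n) (DualNumber k))
    (hA : ∀ i j, A i j = inl ((1 : Matrix (Fin n) (Fin n) k) i j) + inr (Y i j))
    (u w : Fin n → k) (i : Fin n) :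
    A.mulVec (fun l => inl (u l) + inr (w l)) i = inl (u i) + inr (w i + (Y.mulVec u) i) := by
  have h1 : ∀ v : Fin n → k, ∑ j, (1 : Matrix (Fin n) (Fin n) k) i j * v j = v i := by
    intro v
    have := congrFun (Matrix.one_mulVec v) i
    exact this
  simp only [Matrix.mulVec, dotProduct, hA]
  ext
  · simp only [fst_sum, fst_mul, fst_add, fst_inl, fst_inr, add_zero]
    exact h1 u
  · simp only [snd_sum, snd_mul, snd_add, snd_inl, snd_inr, zero_add, fst_add, fst_inl, fst_inr,
      add_zero, smul_eq_mul, op_smul_eq_mul, Finset.sum_add_distrib]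
    rw [h1 w]

theorem ev_lie (hd : 1 ≤ d) (Y : Matrix (Fin n) (Fin n) k) (c : Ix n d → k) (x : Fin n → k)
    (i : Fin n) : ev (lie Y c) x i = Y.mulVec (ev c x) i -
      ∑ l, (Y.mulVec x) l * eval x (pderiv l (pol c i)) := by
  have h1 : pol (lie Y c) i = ∑ j, C (Y i j) * pol c j -
      ∑ l, (∑ m, C (Y l m) * X m) * pderiv l (pol c i) := by
    refine pol_of_coeff (P := fun i => ∑ j, C (Y i j) * pol c j -
      ∑ l, (∑ m, C (Y l m) * X m) * pderiv l (pol c i)) (fun i => ?_) i
    refine IsHomogeneous.sub ?_ ?_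
    · refine IsHomogeneous.sum _ _ _ fun j _ => ?_
      have := (isHomogeneous_C (Fin n) (Y i j)).mul (isHomogeneous_pol c j)
      rwa [zero_add] at this
    · refine IsHomogeneous.sum _ _ _ fun l _ => ?_
      have := (isHomogeneous_lin Y l).mul ((isHomogeneous_pol c i).pderiv (i := l))
      rwa [Nat.add_sub_cancel' hd] at this
  rw [← eval_pol, h1, map_sub, map_sum, map_sum]
  congr 1
  · simp only [Matrix.mulVec, dotProduct]
    refine Finset.sum_congr rfl fun j _ => ?_
    rw [map_mul, eval_C, eval_pol]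
  · refine Finset.sum_congr rfl fun l _ => ?_
    rw [map_mul, map_sum]
    congr 1
    simp only [Matrix.mulVec, dotProduct]
    refine Finset.sum_congr rfl fun m _ => ?_
    rw [map_mul, eval_C, eval_X]

theorem dd_X (q₀ : Fin n × Fin n) (c v : Fin n × Fin n → k) : dd (X q₀) c v = v q₀ := by
  unfold dd
  rw [Finset.sum_eq_single q₀]
  · rw [pderiv_X_self, map_one, mul_one]
  · intro q _ hq
    rw [pderiv_X_of_ne hq.symm, map_zero, mul_zero]
  · intro h
    exact absurd (Finset.mem_univ _) h

theorem Gm_dual (h4 : S_DG n k) (Y : Matrix (Fin n) (Fin n) k) (i j : Fin n) :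
    (Gm n k).map (dualHom h4 Y) i j = inl ((1 : Matrix (Fin n) (Fin n) k) i j) + inr (Y i j) := by
  rw [Matrix.map_apply, dualHom_apply]
  have h1 := h4.rep (fun g => g.1 i j) (X (i, j)) 0
    (fun g => by rw [pow_zero, mul_one, eval_X]; rfl) Y
  rw [Nat.cast_zero, zero_mul, zero_mul, sub_zero, dd_X] at h1
  have h2 : (Gm n k i j).1 = fun g : GL (Fin n) k => g.1 i j := rfl
  rw [h2, h1]
  rfl

theorem Gi_dual (h4 : S_DG n k) (Y : Matrix (Fin n) (Fin n) k) (i j : Fin n) :
    (Gi n k).map (dualHom h4 Y) i j =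
      inl ((1 : Matrix (Fin n) (Fin n) k) i j) + inr ((-Y) i j) := by
  set A' : Matrix (Fin n) (Fin n) (DualNumber k) := fun i j =>
    inl ((1 : Matrix (Fin n) (Fin n) k) i j) + inr ((-Y) i j) with hA'
  have h1 : A' * (Gm n k).map (dualHom h4 Y) = 1 := by
    ext i l
    · rw [Matrix.mul_apply, fst_sum]
      simp only [Gm_dual, hA', fst_mul, fst_add, fst_inl, fst_inr, add_zero]
      have h2 : (1 : Matrix (Fin n) (Fin n) k) * (1 : Matrix (Fin n) (Fin n) k) = 1 := one_mul _
      have h3 := congrFun (congrFun h2 i) l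
      rw [Matrix.mul_apply] at h3
      rw [h3]
      by_cases hil : i = l
      · subst hil
        rw [Matrix.one_apply_eq, Matrix.one_apply_eq, fst_one]
      · rw [Matrix.one_apply_ne hil, Matrix.one_apply_ne hil, fst_zero]
    · rw [Matrix.mul_apply, snd_sum]
      simp only [Gm_dual, hA', snd_mul, fst_add, snd_add, snd_inl, snd_inr, fst_inl, fst_inr,
        add_zero, zero_add, smul_eq_mul, op_smul_eq_mul, Finset.sum_add_distrib]
      have h2 : (1 : Matrix (Fin n) (Fin n) k) * Y = Y := one_mul _
      have h3 := congrFun (congrFun h2 i) l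
      have h4 : (-Y) * (1 : Matrix (Fin n) (Fin n) k) = -Y := mul_one _
      have h5 := congrFun (congrFun h4 i) l
      rw [Matrix.mul_apply] at h3 h5
      rw [h3, h5]
      have h6 : ((1 : Matrix (Fin n) (Fin n) (DualNumber k)) i l).snd = 0 := by
        by_cases hil : i = l
        · subst hil
          rw [Matrix.one_apply_eq, snd_one]
        · rw [Matrix.one_apply_ne hil, snd_zero]
      rw [h6, Matrix.neg_apply]
      ring
  have h2 : (Gm n k).map (dualHom h4 Y) * (Gi n k).map (dualHom h4 Y) = 1 := by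
    rw [← Matrix.map_mul, Gm_mul_Gi]
    exact Matrix.map_one _ (map_zero _) (map_one _)
  have h3 : (Gi n k).map (dualHom h4 Y) = A' := by
    calc (Gi n k).map (dualHom h4 Y)
        = (A' * (Gm n k).map (dualHom h4 Y)) * (Gi n k).map (dualHom h4 Y) := by
          rw [h1, one_mul]
      _ = A' := by rw [mul_assoc, h2, mul_one]
  rw [h3]

/-- derivative of the coordinates of the orbit map -/
theorem dG_coord [Infinite k] (h4 : S_DG n k) (hd : 1 ≤ d) (Y : Matrix (Fin n) (Fin n) k)
    (h : Ix n d → k) (q : Ix n d) : dG (aG h q).1 Y = lie Y h q := by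
  have h5 : (fun q => dG (aG h q).1 Y) = lie Y h := by
    apply ev_injective
    intro x
    funext i
    have e1 := congrFun (ev_tw ((Gm n k).map (dualHom h4 Y)) ((Gi n k).map (dualHom h4 Y))
      (fun q => (inl (h q) : DualNumber k)) (fun l => inl (x l))) i
    have e3 : tw ((Gm n k).map (dualHom h4 Y)) ((Gi n k).map (dualHom h4 Y))
        (fun q => (inl (h q) : DualNumber k)) = fun q => dualHom h4 Y (aG h q) := by
      funext q
      unfold aG
      rw [tw_map]
      congr 1
      funext q
      rw [dualHom_apply]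
      have := h4.const (h q) Y
      have h6 : (algebraMap k (OG n k) (h q)).1 = fun _ : GL (Fin n) k => h q := rfl
      rw [h6, this, inr_zero, add_zero]
    have e4 : ((Gi n k).map (dualHom h4 Y)).mulVec (fun l => (inl (x l) : DualNumber k)) =
        fun l => inl (x l) + inr (0 + ((-Y).mulVec x) l) := by
      funext l
      have := mulVec_dual (-Y) _ (Gi_dual h4 Y) x 0 l
      rw [← Pi.zero_apply (M := fun _ => k) l, ← this]
      congr 1
      funext l
      rw [Pi.zero_apply, inr_zero, add_zero]
    have e5 : ev (fun q => (inl (h q) : DualNumber k))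
        (fun l => inl (x l) + inr (0 + ((-Y).mulVec x) l)) =
        fun i => inl (ev h x i) +
          inr (∑ l, (0 + ((-Y).mulVec x) l) * eval x (pderiv l (pol h i))) := by
      funext i
      exact ev_inl h x (fun l => 0 + ((-Y).mulVec x) l) i
    rw [e3, ev_dual, e4, e5, mulVec_dual Y _ (Gm_dual h4 Y)] at e1
    have e6 := congrArg snd e1
    simp only [snd_add, snd_inl, snd_inr, zero_add] at e6
    have e7 : (fun q => (dualHom h4 Y (aG h q)).snd) = fun q => dG (aG h q).1 Y := by
      funext q
      rw [dualHom_apply, snd_add, snd_inl, snd_inr, zero_add]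
    rw [e7] at e6
    rw [e6, ev_lie hd, Matrix.neg_mulVec]
    simp only [Pi.neg_apply, neg_mul, Finset.sum_neg_distrib]
    ring
  exact congrFun h5 q

end dual

/-! ## derivatives of compositions -/

theorem dd_add {σ : Type} [Fintype σ] (P Q : MvPolynomial σ k) (c v : σ → k) :
    dd (P + Q) c v = dd P c v + dd Q c v := by
  unfold dd
  rw [← Finset.sum_add_distrib]
  refine Finset.sum_congr rfl fun q _ => ?_
  rw [map_add, map_add, mul_add]

theorem dd_C {σ : Type} [Fintype σ] (a : k) (c v : σ → k) :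
    dd (C a : MvPolynomial σ k) c v = 0 := by
  unfold dd
  refine Finset.sum_eq_zero fun q _ => ?_
  rw [pderiv_C, map_zero, mul_zero]

theorem dd_mul_X {σ : Type} [Fintype σ] [DecidableEq σ] (P : MvPolynomial σ k) (q₀ : σ)
    (c v : σ → k) : dd (P * X q₀) c v = eval c P * v q₀ + dd P c v * c q₀ := by
  unfold dd
  have h1 : ∀ l, v l * eval c (pderiv l (P * X q₀)) =
      (v l * eval c (pderiv l P)) * c q₀ + (if l = q₀ then eval c P * v q₀ else 0) := by
    intro l
    rw [Derivation.leibniz, map_add, smul_eq_mul, smul_eq_mul, map_mul, map_mul, eval_X]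
    by_cases hl : l = q₀
    · subst hl
      rw [pderiv_X_self, map_one, if_pos rfl]
      ring
    · rw [pderiv_X_of_ne (Ne.symm hl), map_zero, if_neg hl]
      ring
  rw [Finset.sum_congr rfl fun l _ => h1 l, Finset.sum_add_distrib, Finset.sum_ite_eq',
    if_pos (Finset.mem_univ q₀), Finset.sum_mul, add_comm]

theorem dG_pG [Infinite k] (h4 : S_DG n k) (hd : 1 ≤ d) (Y : Matrix (Fin n) (Fin n) k)
    (h : Ix n d → k) (P : MvPolynomial (Ix n d) k) :
    dG (pG h P).1 Y = dd P h (lie Y h) := by
  classical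
  induction P using MvPolynomial.induction_on with
  | C a =>
    rw [dd_C]
    have h1 : (pG h (C a)).1 = fun _ => a := by
      funext g
      rw [pG_apply, eval_C]
    rw [h1, h4.const]
  | add p q hp hq =>
    have h1 : (pG h (p + q)).1 = (pG h p).1 + (pG h q).1 := by
      funext g
      rw [Pi.add_apply, pG_apply, pG_apply, pG_apply, map_add]
    rw [h1, h4.add _ _ (pG h p).2 (pG h q).2, hp, hq, dd_add]
  | mul_X p q hp =>
    have h1 : (pG h (p * X q)).1 = (pG h p).1 * (aG h q).1 := by
      funext g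
      rw [Pi.mul_apply, pG_apply, pG_apply, aG_apply, map_mul, eval_X]
    rw [h1, h4.mul _ _ (pG h p).2 (aG h q).2, hp, dd_mul_X, dG_coord h4 hd, pG_apply, aG_apply,
      act_one]
    ring

/-! ## invariance under scalars and the theorem -/

theorem act_scal [Infinite k] (hd : 2 ≤ d) (ζ : k) (g g' : GL (Fin n) k) (hz : ζ ^ (d - 1) = 1)
    (hg : (g' : Matrix (Fin n) (Fin n) k) = ζ • (g : Matrix (Fin n) (Fin n) k))
    (v : Ix n d → k) : act g' v = act g v := by
  apply act_eq_of
  intro x
  have h1 : ζ ^ d = ζ := by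
    have : d = (d - 1) + 1 := by omega
    rw [this, pow_succ, hz, one_mul]
  rw [hg, Matrix.smul_mulVec, ev_scale, ev_act_mulVec, h1, Matrix.smul_mulVec]

theorem regG_div [IsAlgClosed k] (f : OG n k) (h : Ix n d → k) (Q : MvPolynomial (Ix n d) k)
    (hQ : ∀ g : GL (Fin n) k, eval (act g h) Q ≠ 0) :
    RegG (fun g => f.1 g / eval (act g h) Q) := by
  have h1 : RegG (fun g : GL (Fin n) k => (eval (act g h) Q)⁻¹) := by
    refine reg_inv (fun g : GL (Fin n) k => eval (act g h) Q) ?_ hQ
    have h2 := (pG h Q).2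
    have h3 : (pG h Q).1 = fun g => eval (act g h) Q := by
      funext g
      rw [pG_apply]
    rw [h3] at h2
    exact h2
  have h4 := (OG n k).mul_mem f.2 (show (fun g : GL (Fin n) k => (eval (act g h) Q)⁻¹) ∈ OG n k
    from h1)
  have h5 : (fun g => f.1 g / eval (act g h) Q) =
      f.1 * fun g : GL (Fin n) k => (eval (act g h) Q)⁻¹ := by
    funext g
    rw [Pi.mul_apply, div_eq_mul_inv]
  rw [h5]
  exact h4

/-- the derivative of a polynomial along the orbit -/
def ddG (h v : Ix n d → k) (P : MvPolynomial (Ix n d) k) : OG n k :=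
  ∑ q, aG v q * pG h (pderiv q P)

theorem ddG_apply (h v : Ix n d → k) (P : MvPolynomial (Ix n d) k) (g : GL (Fin n) k) :
    (ddG h v P).1 g = dd P (act g h) (act g v) := by
  unfold ddG dd
  rw [← evg_apply, map_sum]
  refine Finset.sum_congr rfl fun q _ => ?_
  rw [map_mul, evg_apply, evg_apply, aG_apply, pG_apply]

theorem t_ORB (n d : ℕ) (k : Type) [Field k] [IsAlgClosed k] [CharZero k] (_hn : 3 ≤ n)
    (hd : 2 ≤ d) (_h1 : S_RES n d k) (_h2 : S_REPU n d k) (h3 : S_DU n d k) (h4 : S_DG n k) :
    S_ORB n d k := by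
  have hreg : ∀ (φ : U n d k → k), RegU φ → ∀ h : U n d k, orb h φ ∈ Cm n d k := by
    intro φ hφ h
    obtain ⟨P, Q, hPQ⟩ := hφ
    refine ⟨?_, ?_⟩
    · have h5 := regG_div (pG h.1 P) h.1 Q (fun g => (hPQ (gact g h)).1)
      have h6 : (orb h φ : GL (Fin n) k → k) =
          fun g => (pG h.1 P).1 g / eval (act g h.1) Q := by
        funext g
        rw [pG_apply]
        exact (hPQ (gact g h)).2
      rw [h6]
      exact h5
    · intro ζ g g' hz hg
      have h5 : gact g' h = gact g h := Subtype.ext (act_scal hd ζ g g' hz hg h.1)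
      show φ (gact g' h) = φ (gact g h)
      rw [h5]
  refine ⟨hreg, ?_, ?_⟩
  · intro φ hφ h Y
    have hr := (hreg φ hφ h).1
    obtain ⟨P, Q, hPQ⟩ := hφ
    have h5 : (orb h φ : GL (Fin n) k → k) * (pG h.1 Q).1 = (pG h.1 P).1 := by
      funext g
      rw [Pi.mul_apply, pG_apply, pG_apply]
      have h6 := hPQ (gact g h)
      have h7 : (orb h φ : GL (Fin n) k → k) g = φ (gact g h) := rfl
      rw [h7, h6.2]
      exact div_mul_cancel₀ _ h6.1
    have h6 := h4.mul _ _ hr (pG h.1 Q).2 Y
    rw [h5, dG_pG h4 (by omega), dG_pG h4 (by omega), pG_apply, act_one] at h6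
    have h7 : (orb h φ : GL (Fin n) k → k) 1 = φ h := by
      show φ (gact 1 h) = φ h
      congr 1
      exact Subtype.ext (act_one h.1)
    rw [h7] at h6
    have h8 := hPQ h
    rw [h3.rep φ P Q hPQ h (lie Y h.1), h6, h8.2]
    have h9 := h8.1
    field_simp
    ring
  · intro φ hφ h v
    obtain ⟨P, Q, hPQ⟩ := hφ
    refine ⟨?_, ?_⟩
    · have h5 := regG_div (ddG h.1 v P * pG h.1 Q - pG h.1 P * ddG h.1 v Q) h.1 (Q ^ 2)
        (fun g => by rw [map_pow]; exact pow_ne_zero 2 (hPQ (gact g h)).1)
      have h6 : (fun g => dU φ (gact g h) (act g v)) =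
          fun g => (ddG h.1 v P * pG h.1 Q - pG h.1 P * ddG h.1 v Q).1 g /
            eval (act g h.1) (Q ^ 2) := by
        funext g
        rw [h3.rep φ P Q hPQ, ← evg_apply, map_sub, map_mul, map_mul]
        simp only [evg_apply, ddG_apply, pG_apply, map_pow]
        rfl
      rw [h6]
      exact h5
    · intro ζ g g' hz hg
      have h5 : gact g' h = gact g h := Subtype.ext (act_scal hd ζ g g' hz hg h.1)
      show dU φ (gact g' h) (act g' v) = dU φ (gact g h) (act g v)
      rw [h5, act_scal hd ζ g g' hz hg v]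

end

end Run7.h675.MD
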